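import Pool.Agent.Lib_helper40.MC.T10v.Q
import Pool.Agent.Lib_helper40.MC.T10v.T

/-!
# c10v: all checks
-/

set_option autoImplicit false
set_option maxRecDepth 100000

namespace Pool.Agent.MC10v

open Pool.Agent.KC72 Pool.Agent.MC

theorem c10v_0 : Num c10v c10v_t := by decide +kernel

theorem c10v_om : xm c10v.kb c10v.ko (c10v.m * c10v.N) c10v.Om = true := by decide +kernel

theorem c10v_b : cB c10v = true := by decide +kernel

theorem c10v_r0 : blk (cR c10v) c10v.rels 60 0 = true := by decide +kernel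

theorem c10v_r1 : blk (cR c10v) c10v.rels 60 1 = true := by decide +kernel

theorem c10v_r2 : blk (cR c10v) c10v.rels 60 2 = true := by decide +kernel

theorem c10v_r' : ∀ k < 3, blk (cR c10v) c10v.rels 60 k = true
  | 0, _ => c10v_r0
  | 1, _ => c10v_r1
  | 2, _ => c10v_r2
  | k + 3, h => absurd h (by omega)

theorem c10v_g : allI (fun c g => cG c10v.DG c10v_t.B c10v_t.MA c10v_t.P2 c10v_t.MB c g) c10v.G 0 = true := by decide +kernel

theorem c10v_g' : c10v.toCert.chk3' = true := by decide +kernel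

theorem c10v_k1 : (c10v.cls.take c10v.m).map (prF c10v_t.p c10v.n c10v.r) = c10v_t.PR := by decide +kernel

theorem c10v_k2 : (c10v.cls.take c10v.m).map (pkw (Int.ofNat c10v_t.Z) (Int.ofNat (Nat.pow c10v_t.Z c10v.n)) c10v.r) = c10v_t.PM := by decide +kernel

theorem c10v_k3 : c10v_t.P2.map (fun x => pmb (Int.ofNat c10v_t.B) x.1 x.2 (c10v.cls.take c10v.m)) = c10v_t.MB := by decide +kernel

theorem c10v_e : c10v.cls.all (fun e => bdE c10v_t.MA c10v.n e.1.2 && bdE c10v_t.MA c10v.n e.2.2) = true := by decide +kernel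

theorem c10v_xq : c10v_t.XQ.all (fun X => X.all (xm c10v_t.a c10v_t.d c10v_t.S)) = true := by decide +kernel

theorem c10v_xt : c10v_t.XT.all (fun X => X.all (xm c10v_t.a' c10v_t.d' c10v_t.K)) = true := by decide +kernel

/-- all checks -/
theorem c10v_ok : ROk c10v :=
  rOk_of (A := c10v_t) (l4 := 60) (n4 := 3) (lQ := 40) (nQ := 5) (lT := 40) (nT := 5) c10v_0 c10v_om c10v_b
    (by decide) (by decide +kernel) c10v_r' c10v_g c10v_g' ⟨c10v_k1, c10v_k2, c10v_k3⟩ c10v_e c10v_xq c10v_xt (by decide) (by decide +kernel) c10v_q'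
    (by decide) (by decide +kernel) c10v_t'

end Pool.Agent.MC10v
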